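import Pool.Agent.H362WK.CH

/-!
# Sigma-centered forcing, and adding any number of Cohen reals, never adds a weak Kurepa tree

Let `p` force that `T` is a tree on `ω₁` with `ℵ₂` different cofinal branches, and suppose that the
conditions which decide nodes of these branches are covered by countably many centered sets. One
of these centered sets decides uncountably many nodes of `ℵ₂` of the branches. The nodes whose
height is decided by finitely many members of this centered set, with the decided order, form a
tree of the ground model, and the decided nodes of each of these branches are cofinal in a branch.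
Different names give different branches: otherwise there is for every `α < ω₁` a condition
forcing that the two branches agree below `α`; extend these conditions to conditions which decide
a level at which the branches differ, and find two compatible ones, the level decided by the first
one being smaller than the ordinal `α` of the second one.

The forcing notion `Fn(I, 2)` is not σ-centered if `I` is larger than the continuum. But every
`ℵ₂` of its conditions are covered by countably many centered sets if `ℵ₂ ≤ 2 ^ ℵ₀`, and if
`2 ^ ℵ₀ = ℵ₁`, then the full binary tree of height `ω₁` is a weak Kurepa tree.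
-/

set_option autoImplicit false

namespace Pool.Agent.Results.MP_5ef322_lc.CenteredWeakKurepa

open Cardinal Pool.Agent.W876.WK Pool.Agent.H362WK

/-- Every condition of `P` forces that all cardinals are preserved, and a condition forces that
there is a weak Kurepa tree at `ω₁` if and only if there is one in the ground model. -/
def NoNewWeakKurepa (P : Type) [Preorder P] : Prop :=
  (∀ p : P, p ∈ CardinalsPreserved P) ∧ ∀ p : P, p ∈ ForcedWeakKurepa P ↔ WeakKurepa

theorem of_locCentered {P : Type} [Preorder P] (h : LocCentered P (ℵ_ 2)) : NoNewWeakKurepa P :=
  ⟨cardinals_preserved_of_loc (h.anti (aleph_le_aleph.2 (by norm_num))),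
    fun p => ⟨Pool.Agent.H362WK.weakKurepa_of_forced h, fun h => forced_of_weakKurepa h p⟩⟩

theorem of_add (I : Type) : NoNewWeakKurepa (FnTwo I) := by
  by_cases h : (ℵ_ 2 : Cardinal.{0}) ≤ 𝔠
  · exact of_locCentered (locCentered_add I (aleph0_le_aleph 2) h)
  · have h1 : (ℵ_ 1 : Cardinal.{0}) ≤ 𝔠 := aleph_one_le_continuum
    have h2 := weakKurepa_of_ch h
    exact ⟨cardinals_preserved_of_loc (locCentered_add I (aleph0_le_aleph 1) h1),
      fun p => ⟨fun _ => h2, fun h => forced_of_weakKurepa h p⟩⟩

instance : Nonempty Cohen := ⟨⟨fun _ => none, by simp⟩⟩

/-- No forcing notion of the following kinds collapses cardinals or adds a weak Kurepa tree at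
`ω₁` (and all of them preserve weak Kurepa trees): σ-centered forcing notions; more generally
forcing notions every `ℵ₂` conditions of which are covered by countably many centered sets; the
forcing notions `Fn(I, 2)` which add any number of Cohen reals; in particular Cohen forcing. -/
theorem result :
    (∀ (P : Type) [Preorder P], SigmaCentered P ∨ LocCentered P (ℵ_ 2) → NoNewWeakKurepa P) ∧
    (∀ I : Type, NoNewWeakKurepa (FnTwo I)) ∧ NoNewWeakKurepa Cohen :=
  ⟨fun _ _ h => of_locCentered (h.elim (fun h => h.loc _) id), of_add,
    of_locCentered ((sigmaCentered_of_countable Cohen).loc _)⟩

end Pool.Agent.Results.MP_5ef322_lc.CenteredWeakKurepa
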